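import Pool.Agent.Run7.h316.UN.Ors
import Pool.Agent.Results.MP_8312c9_nt.RandomOrbits

/-!
# The birational section conjecture for twists of cyclic coverings by sums of primes

Let `D : b y ^ n = ∏ k, g k (z)` be a curve over `ℚ`, where the `g k` are polynomials with integral
coefficients, of degrees divisible by `n`, pairwise coprime, and let `h` be a polynomial with integral
coefficients, coprime to the `g k` (`Admissible`). For an integer `a` and `m ≥ 2`, `m ∣ deg h`, consider the
cyclic covering `C a : b y ^ n = ∏ k, g k (z)`, `a x ^ m = h (z)` of `D`.

`Good n b g h a` is the property of `a` of the starting files `SectionsOfTwistedCoverings` (helper925; 100% of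
the squarefree integers) and `RandomOrbits` (helper676): for all `m ≥ 2` dividing `deg h`, every section of
`Gal(Ω/F) → G_ℚ`, `F` the function field of `C a`, of a covering of it or of a variety with a dominant map to
it, which is geometric over the completions at the finite places, has a persistent class; and if `n = 2`,
every persistent class is the class of an integral zero of `h`, and for some product `f` of some of the `g k`
the curves `f(α) y² = f(z)`, `h(α) = 0`, are elliptic curves with finitely many rational points and a
Tate-Shafarevich group of finite exponent, then every such section (for `F` algebraic over `ℚ(z)`) arises from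
exactly one rational point, and `x = 0` there.

The twisting parameter is the value `a = λ(c)` of a linear form at the vectors of a family. Let `c w`, `w ∈ Ω`,
be a family of integral vectors and `S M ⊂ Ω` finite sets; `Usually`: for ALL linear forms `λ` (in the given
set) and ALL admissible families `(n, b, g, h)` the proportion of the `w ∈ S M` for which `λ(c w)` is not good
tends to zero, `M → ∞`.

**Theorem.** (A) For the linear forms `λ ≠ 0` the property `Usually` is spread-robust
(`Pool.Agent.Run7.h316.UN.SpreadRobust`): all spread families have it (the proportion of the vectors in a given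
class modulo `q` is at most `C q ^ (-r) + o(1)` for all `q` prime to some number), metric sequences, random
orbits of Zariski dense groups, generalised polynomials.

(B) PRIMES. For the linear forms `λ` with at least two nonzero coefficients the property `Usually` is
unit-robust (`Pool.Agent.Run7.h316.UN.UnitRobust`): it holds for the vectors of prime numbers `≤ M`, and for
all families which are spread over the vectors of units: the proportion of the vectors in a given class modulo
`q` is at most `C φ(q) ^ (-r) + o(1)`, and almost no vectors have a coordinate which is not prime to `q`, for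
all `q` prime to some number. For example for almost all pairs of prime numbers `p`, `p'` up to `M` the twist
by `a = p - p'` is good.

Two coefficients are necessary: a prime of a given Frobenius class never divides a single prime number `p`
exactly once, if `p` is not itself in this class.

Proof. `Good` follows if a prime of each of finitely many Frobenius classes divides `a` exactly once
(helper925, helper676). The vectors of primes are not dominated by Haar measure: the proportion of the vectors
in a class of units modulo `q` is `φ(q) ^ (-r)`, which is `(q / φ(q)) ^ r` times as large as it should be,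
and here the relevant local conditions have a density of about `1 / p`, so that the numbers `q` which are
needed are such that `q / φ(q)` tends to infinity. Therefore the local conditions are counted on the vectors of
units (`Pool.Agent.Run7.h316.UN.lin_count`: the value of a linear form with two coefficients which are units is
in a given class modulo `p ^ 2` divisible by `p` for at least the proportion `1 / (2 p ^ 2)` of them); the set
of the vectors which are not good is unit null (`UnitNull`), and families which are spread over the vectors
of units avoid unit null sets. Vectors of primes: the prime number theorem for arithmetic progressions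
(helper923). Metric sequences: `Pool.Agent.N24.KM` (helpers 24, 344, 617, 199, 764, 432, 286); random orbits:
`Pool.Agent.N24.RW` (helpers 24, 123, 195, 300, 543, 765); generalised polynomials: `Pool.Agent.N666.TM`
(helper666); `Pool.Agent.N918.EQ` (helper918).
-/

set_option autoImplicit false

namespace Pool.Agent.Results.MP_8312c9_nt.PrimeTwists

open Polynomial
open Pool.Agent.Run7.h316.UN (SpreadRobust UnitRobust TwoNonzero robust_of_hits)
open Pool.Agent.Results.MP_8312c9_nt.SectionsOfTwistedCoverings (Admissible)
open Pool.Agent.Results.MP_8312c9_nt.RandomOrbits (Good good_of)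

/-- For all linear forms `λ` in `L` and all admissible families `(n, b, g, h)` the proportion of the `w` in `S M`
for which `λ(c w)` is not good tends to zero, `M → ∞`. -/
def Usually {ι : Type} [Fintype ι] (L : (ι → ℤ) → Prop) (Ω : Type) (S : ℕ → Finset Ω)
    (c : Ω → ι → ℤ) : Prop :=
  ∀ lam : ι → ℤ, L lam → ∀ (r n : ℕ) (b : ℤ) (g : Fin r → ℤ[X]) (h : ℤ[X]), Admissible n b g h →
    ∀ ε : ℝ, 0 < ε → ∃ M₀ : ℕ, ∀ M : ℕ, M₀ ≤ M →
      (({w : Ω | w ∈ S M ∧ ¬ Good n b g h (∑ i, lam i * c w i)}.ncard : ℕ) : ℝ) ≤ ε * (S M).card

/-- **The birational section conjecture for twists of cyclic coverings by values of linear forms at vectors of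
primes, spread families, metric sequences, random orbits and generalised polynomials.** -/
theorem result (ι : Type) [Fintype ι] [DecidableEq ι] [Nonempty ι] :
    SpreadRobust (Usually (ι := ι) fun lam => lam ≠ 0) ∧
      UnitRobust (Usually (ι := ι) TwoNonzero) := by
  classical
  have hcp := Pool.Agent.N676.OR.countable_poly
  have key := robust_of_hits (ι := ι) (𝔇 := Σ r : ℕ, ℕ × ℤ × (Fin r → ℤ[X]) × ℤ[X])
    (fun D a => Admissible D.2.1 D.2.2.1 D.2.2.2.1 D.2.2.2.2 →
      Good D.2.1 D.2.2.1 D.2.2.2.1 D.2.2.2.2 a) (by
    rintro ⟨r, n, b, g, h⟩
    by_cases hA : Admissible n b g h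
    · obtain ⟨PP, h1, h2, h3⟩ := good_of hA
      exact ⟨PP, h1, h2, fun a ha _ => h3 a ha⟩
    · exact ⟨∅, Set.finite_empty, fun P hP => absurd hP (Set.notMem_empty _),
        fun a _ hA' => absurd hA' hA⟩)
  have hconv : ∀ (L : (ι → ℤ) → Prop) (Ω : Type) (S : ℕ → Finset Ω) (c : Ω → ι → ℤ),
      (∀ lam : ι → ℤ, L lam → ∀ D : Σ r : ℕ, ℕ × ℤ × (Fin r → ℤ[X]) × ℤ[X],
        Pool.Agent.Run7.h316.EQ.Rare S c {x | ¬ (Admissible D.2.1 D.2.2.1 D.2.2.2.1 D.2.2.2.2 →
          Good D.2.1 D.2.2.1 D.2.2.2.1 D.2.2.2.2 (∑ i, lam i * x i))}) → Usually L Ω S c := by
    intro L Ω S c hR lam hlam r n b g h hA ε hε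
    obtain ⟨M₀, h1⟩ := hR lam hlam ⟨r, n, b, g, h⟩ ε hε
    refine ⟨M₀, fun M hM => le_trans ?_ (h1 M hM)⟩
    refine Nat.cast_le.2 (Set.ncard_le_ncard ?_ ((S M).finite_toSet.subset fun w hw => hw.1))
    rintro w ⟨hw1, hw2⟩
    exact ⟨hw1, fun hgood => hw2 (hgood hA)⟩
  exact ⟨key.1.imp (hconv _), key.2.imp (hconv _)⟩

end Pool.Agent.Results.MP_8312c9_nt.PrimeTwists
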