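import Pool.Agent.Run7.h846.FacM
import Pool.Agent.W623.SecF.Kt

/-!
# The weak birational section conjecture for products of twisted polynomials

Let `k` be a field of characteristic zero, `A` a discrete valuation ring of `k` with residue field `κ`,
for instance the local ring of a divisor on a scheme of finite type over `ℤ` with function field `k`, or
of the point `t = 0` if `k = K(t)`.  Let `q` be a prime number.  We consider polynomials `f ∈ k[x]` with
`f(α x + β) = α ^ (deg f) g(x)` for some `α, β ∈ k`, `α ≠ 0`, and a monic polynomial `g ∈ A[x]` with a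
separable reduction over `κ`.  So the roots of `f` form a cluster, with centre `β` and radius `α`.  Let
`f_i` be finitely many pairwise coprime polynomials of this kind, for polynomials `g_i` and arbitrary
`α_i, β_i`.  Let `d ∈ k^*` have a valuation which is not divisible by `q`, let `m_i` be prime to `q` and
`n > 0` be divisible by `q`.  Let `C` be the curve `d y ^ n = ∏ f_i(x) ^ m_i`.

**Theorem.**  (A) Suppose that the degrees of all irreducible factors of the reductions of all `g_i` are
divisible by `q` (by `4` if `q = 2`), or that `q = 2`, `κ` is finitely generated of characteristic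
different from `2`, `deg g_i ≥ 4` and the irreducible factors have even degrees.  Then over ALL finite
extensions `L` of `k` of degree prime to `q` the curve `C` has no rational point, and there is no section
`G_L → π₁(U)` for any smooth curve (or variety) `U` over `L` with a nonconstant map to `C`; in particular
there is no birational section of `C`.  If `q = 2`, `κ` is finitely generated of characteristic different
from `2` and the `g_i` have even degrees `≥ 4` and no root modulo the maximal ideal, then this is true for
`L = k`.
(B) Let `K` be a field which is finitely generated over `ℚ`, `k = K(t)`, `f_i(x) = α_i ^ (deg g_i)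
g_i((x - β_i)/α_i)` with monic separable polynomials `g_i ∈ K[x]` of even degree `≥ 4` and arbitrary
`α_i ≠ 0`, `β_i` in `K(t)` (such that the `f_i` are pairwise coprime), let `d ∈ K(t)` have odd order at
`t = 0`, let the `m_i` be odd and `n` even.  Then the following are equivalent: some `g_i` has a root in `K`;
`C` has a rational point over `K(t)`; `C` has a rational point or there is a section for a curve over `C`.
(C) Let `q` be any prime number, `K` any field of characteristic zero (finitely generated, and
`deg g_i ≥ 4`, if `q = 2`), and let `d ∈ K(t)` have an order at `t = 0` which is not divisible by `q`.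
Then the following are equivalent: some `g_i` has an irreducible factor of degree prime to `q`; `C` has a
point over an extension of `K(t)` of degree prime to `q`; over some extension `L` of `K(t)` of degree prime
to `q` the curve `C` has a rational point or there is a section `G_L → π₁(U)` for a curve over `C`.

So the weak form of the section conjecture and of the birational section conjecture, if there is a
section then there is a rational point, holds for all these curves over the finitely generated field
`K(t)`, and (for `q = 2`) for all curves over them if the `g_i` have no root in `K`.  The point `t = 0` can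
be replaced by any `K`-rational point of the line, by a change of the coordinate.

The starting results `RamifiedTwists` and `FactorDegrees` of this page are the case where `∏ f_i` itself has
good reduction, over `K(t)` the curves `d(t) y ^ n = f(x)` with `f ∈ K[x]`, which are twists of curves
over `K`.  Here the family of curves is in general not isotrivial: already for two clusters some cross
ratios of the roots of `f_1 f_2` are nonconstant rational functions of `t` (over the algebraic closure of
`K`).  The clusters at `t = 0` can be disjoint, nested or intertwined, and the curve has in general bad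
reduction at `t = 0` over all finite extensions of `k`.  For example let `K = ℚ`,
`g = (x² - 13)(x² - 17)(x² - 221)`, which has roots modulo all primes and in all completions of `ℚ`; for
all `α, β ∈ ℚ(t)`, `α ≠ 0`, and all `d` of odd order at `t = 0` the curve `d y² = g(x) g((x - β)/α)` has no
sections over `ℚ(t)`, if the two factors are coprime.

The fundamental group is described through valuations.  Let `U` be a smooth geometrically connected
curve over `L` with function field `E`, let `Ω` be an algebraic closure of `E`, and let `E_U` be the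
maximal extension of `E` inside `Ω` which is unramified over the closed points of `U`, that is, over
their local rings, which are valuation rings of `E`.  Then `π₁(U) = Gal(E_U/E)`, and the map
`π₁(U) → G_L` is the restriction of automorphisms to the algebraic closure of `L` in `Ω`.  For `U = ∅` one
gets `E_U = Ω` and the sections of `Gal(Ω/E) → G_L`.

Proof.  One can suppose `n = q`.  The functions `f_i(x)` have divisors divisible by `q` on `C`, hence their
`q`-th roots are in `E_U`, and Hilbert's Theorem 90 for the action of `G_k` given by the section `σ` gives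
`a_i ∈ k^*` and `β_i ∈ E_U`, fixed by `σ`, with `a_i β_i ^ q = f_i(x)`, and `d = ∏ a_i ^ m_i` up to
`q`-th powers of `k` (`Fac`).  So `σ` is a section for the neighbourhood `E(β_i)`, which contains the
function field of `a_i y ^ q = f_i(x)` (`Nbh`).  As the valuation of `d` is not divisible by `q`, the same
is true for one of the `a_i`, and after a change of the coordinate the curve `a_i y ^ q = f_i(x)` is one of
the curves of the starting results.  For an extension `L` of degree prime to `q` one uses a discrete
valuation ring of `L` above `A` whose ramification index and residue degree are prime to `q` (`FacE`).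
-/

set_option autoImplicit false

open Polynomial

namespace Pool.Agent.Results.MP_8312c9_nt.ProductsOfTwistedPolynomials

section definitions

variable (k F Ω : Type) [Field k] [Field F] [Field Ω] [Algebra k F] [Algebra F Ω] [Algebra k Ω]

/-- The inertia group of the valuation ring `W` of `Ω`, as a subgroup of `Gal(Ω/F)`: the
automorphisms of `Ω` over `F` that map `W` onto itself and act as the identity on its residue
field. -/
noncomputable def inertia (W : ValuationSubring Ω) : Subgroup (Ω ≃ₐ[F] Ω) :=
  (W.inertiaSubgroup F).map (W.decompositionSubgroup F).subtype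

/-- `F_U`, for a set `U` of valuation rings of `F`: the elements of `Ω` fixed by the inertia groups
of all valuation rings `W` of `Ω` with `W ∩ F ∈ U`.  If `Ω` is an algebraic closure of a field `F`
of characteristic zero, this is the maximal extension of `F` in `Ω` unramified over `U`. -/
noncomputable def unramified (U : Set (ValuationSubring F)) : IntermediateField F Ω :=
  ⨅ W : {W : ValuationSubring Ω // W.comap (algebraMap F Ω) ∈ U},
    IntermediateField.fixedField (inertia F Ω W.1)

/-- The sections of `Gal(N/F) → G_k`: the continuous homomorphisms `s` from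
`G_k = Gal(k̄/k)` to `Gal(N/F)`, where `k̄` is the algebraic closure of `k` in `Ω`, such that
`s(σ)` acts as `σ` on the elements of `k̄` in `N`. -/
structure GaloisSection (N : IntermediateField F Ω) where
  /-- the homomorphism `Gal(k̄/k) → Gal(N/F)` -/
  toHom : (algebraicClosure k Ω ≃ₐ[k] algebraicClosure k Ω) →* (N ≃ₐ[F] N)
  cont : Continuous toHom
  compat : ∀ σ (c : algebraicClosure k Ω) (z : N), (z : Ω) = c → (toHom σ z : Ω) = σ c

end definitions

/-- The curve `d y ^ n = ∏ f_i(x) ^ m_i` has a rational point. -/
def HasPoint {k : Type} [Field k] {I : Type} [Fintype I] (n : ℕ) (d : k) (f : I → k[X])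
    (m : I → ℕ) : Prop :=
  ∃ x y : k, d * y ^ n = ∏ i, (f i).eval x ^ m i

/-- There is a section of the fundamental group of a curve over the curve
`d y ^ n = ∏ f_i(x) ^ m_i`: there are a field `F` over `k` that contains a point `(x, y)` of the curve,
for instance the function field of the curve or of a curve which dominates it, an algebraic closure
`Ω` of `F` and a set `U` of valuation rings of `F` over `k`, for instance those of the points of a
smooth curve with function field `F`, such that `Gal(F_U/F) → G_k` has a section. -/
def HasSection {k : Type} [Field k] {I : Type} [Fintype I] (n : ℕ) (d : k) (f : I → k[X])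
    (m : I → ℕ) : Prop :=
  ∃ (F Ω : Type) (_ : Field F) (_ : Field Ω) (_ : Algebra k F) (_ : Algebra F Ω)
    (_ : Algebra k Ω) (_ : IsScalarTower k F Ω) (_ : IsAlgClosure F Ω) (x y : F)
    (U : Set (ValuationSubring F)),
    algebraMap k F d * y ^ n = ∏ i, aeval x (f i) ^ m i ∧
      (∀ O ∈ U, ∀ c : k, algebraMap k F c ∈ O) ∧ Nonempty (GaloisSection k F Ω (unramified F Ω U))

/-- The curve has a rational point or there is a section. -/
def PointOrSection {k : Type} [Field k] {I : Type} [Fintype I] (n : ℕ) (d : k) (f : I → k[X])
    (m : I → ℕ) : Prop :=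
  HasPoint n d f m ∨ HasSection n d f m

/-- The property `P` holds for the curve over some finite extension of `k` of degree prime to `q`. -/
def OverPrime (q : ℕ) (P : ∀ (k : Type) [Field k] (I : Type) [Fintype I], ℕ → k → (I → k[X]) →
    (I → ℕ) → Prop) {k : Type} [Field k] {I : Type} [Fintype I] (n : ℕ) (d : k) (f : I → k[X])
    (m : I → ℕ) : Prop :=
  ∃ (L : Type) (_ : Field L) (_ : Algebra k L) (_ : FiniteDimensional k L),
    ¬ q ∣ Module.finrank k L ∧ P L I n (algebraMap k L d) (fun i => (f i).map (algebraMap k L)) m

/-- `f(α x + β) = α ^ (deg f) g(x)` for some `α ≠ 0` and `β` in `k`. -/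
def IsTwist {k : Type} [Field k] (f g : k[X]) : Prop :=
  ∃ α β : k, α ≠ 0 ∧ f.comp (C α * X + C β) = C (α ^ f.natDegree) * g

/-- The field `κ` is finitely generated (over its prime field). -/
def FGField (κ : Type) [Field κ] : Prop := ∃ s : Finset κ, Subfield.closure (s : Set κ) = ⊤

/-- All irreducible factors of `P` have a degree divisible by `N`. -/
def FactorsDivisible (N : ℕ) {κ : Type} [Field κ] (P : κ[X]) : Prop :=
  ∀ h : κ[X], Irreducible h → h ∣ P → N ∣ h.natDegree

/-- All irreducible factors of `P` have a degree divisible by `q`, by `4` if `q = 2`; or `q = 2`, the field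
is finitely generated of characteristic different from `2`, `deg P ≥ 4` and all irreducible factors of
`P` have even degree. -/
def GoodFactors (q : ℕ) {κ : Type} [Field κ] (P : κ[X]) : Prop :=
  FactorsDivisible (Nat.gcd 2 q * q) P ∨
    (q = 2 ∧ FGField κ ∧ (2 : κ) ≠ 0 ∧ 4 ≤ P.natDegree ∧ FactorsDivisible 2 P)

/-- `a` is the product of a unit and of the power `ϖ ^ j` of a uniformiser of `A`, where `j` is not
divisible by `q`. -/
def ValuationPrime (q : ℕ) (A : Type) {k : Type} [CommRing A] [Field k] [Algebra A k] (a : k) :
    Prop :=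
  ∃ (ϖ u : A) (j : ℤ), Irreducible ϖ ∧ IsUnit u ∧ ¬ (q : ℤ) ∣ j ∧
    a = algebraMap A k u * algebraMap A k ϖ ^ j

/-- `a = t ^ j p(t)/r(t)` with `p(0), r(0) ≠ 0` and `j` not divisible by `q`: a rational function in `t`
whose order at the point `t = 0` is not divisible by `q`. -/
def OrderPrime (q : ℕ) (K : Type) {k : Type} [Field K] [Field k] [Algebra K k] (t a : k) : Prop :=
  ∃ (j : ℤ) (p r : K[X]), ¬ (q : ℤ) ∣ j ∧ p.eval 0 ≠ 0 ∧ r.eval 0 ≠ 0 ∧
    a = t ^ j * (aeval t p / aeval t r)

lemma nops {k : Type} [Field k] {I : Type} [Fintype I] {n : ℕ} {d : k} {f : I → k[X]}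
    {m : I → ℕ} (h : Run7.h846.NoPS n d f m) : ¬ PointOrSection n d f m := by
  rintro (hp | hs)
  · exact h.1 hp
  · obtain ⟨F, Ω, _, _, _, _, _, _, hΩ, x, y, U, hxy, hU, ⟨G⟩⟩ := hs
    have hcl : IsAlgClosed Ω := IsAlgClosure.isAlgClosed F
    have halg : Algebra.IsAlgebraic F Ω := IsAlgClosure.isAlgebraic
    exact h.2 F Ω U hU ⟨G.toHom, G.cont, G.compat⟩ x y hxy

section general

variable {A k : Type} [CommRing A] [IsDomain A] [IsDiscreteValuationRing A] [Field k] [CharZero k]
  [Algebra A k] [IsFractionRing A k] {κ : Type} [Field κ] (ρ : A →+* κ)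

omit [CharZero k] in
lemma notPV {q : ℕ} {d : k} (h : ValuationPrime q A d) : ∃ ϖ : A, Irreducible ϖ ∧
    d ≠ 0 ∧ ¬ Run7.h846.PV q ϖ d := by
  obtain ⟨ϖ, u, j, hϖ, ⟨u, rfl⟩, hj, rfl⟩ := h
  exact ⟨ϖ, hϖ, mul_ne_zero (Run7.h846.algUnit_ne u) (zpow_ne_zero _ (Run7.h846.algϖ_ne hϖ)),
    Run7.h846.not_PV hϖ hj⟩

/-- (A), extensions of degree prime to `q` -/
theorem general (hρ : Function.Surjective ρ) (q : ℕ) (hq : q.Prime) {I : Type} [Fintype I]
    (f : I → k[X]) (g : I → A[X]) (hg : ∀ i, (g i).Monic) (hs : ∀ i, ((g i).map ρ).Separable)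
    (hfg : ∀ i, IsTwist (f i) ((g i).map (algebraMap A k)))
    (hcop : ∀ i j, i ≠ j → IsCoprime (f i) (f j)) (m : I → ℕ) (hm : ∀ i, ¬ q ∣ m i) (d : k)
    (hd : ValuationPrime q A d) (n : ℕ) (hn : 0 < n) (hqn : q ∣ n)
    (hcond : ∀ i, GoodFactors q ((g i).map ρ)) :
    ¬ OverPrime q (fun _ _ _ _ => PointOrSection) n d f m := by
  rintro ⟨L, _, _, _, hL, hP⟩
  refine nops ?_ hP
  obtain ⟨ϖ, hϖ, hd0, hPV⟩ := notPV hd
  choose α β hα he using hfg
  have hsep := fun i => Pool.Agent.TH377.LocG.separable_residue ρ hρ _ (hs i)
  refine Run7.h846.fac_ext hq hϖ f g α β (fun i => ⟨hα i, hg i, hsep i, he i⟩) hcop m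
    (fun i => ((hq.coprime_iff_not_dvd).2 (hm i)).symm) d hd0 hPV (fun i => ?_) hn hqn L hL
  obtain ⟨l, hl⟩ := Pool.Agent.TH377.LocG.exists_residue_lift ρ hρ
  rcases hcond i with h | ⟨h1, h2, h3, h4, h5⟩
  · exact Or.inl (Pool.Agent.TH377.LocG.factorDiv_residue ρ hρ _ _ h)
  · refine Or.inr ⟨h1, Run7.h846.fg_of_equiv l.symm h2, fun h6 => h3 ?_, ?_,
      Pool.Agent.TH377.LocG.factorDiv_residue ρ hρ _ _ h5⟩
    · have h7 : l 2 = l 0 := congrArg l h6
      rwa [map_ofNat, map_zero] at h7
    · rwa [(hg i).natDegree_map] at h4 ⊢

/-- (A), no roots in the residue field -/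
theorem general2 (hρ : Function.Surjective ρ) (hκ : FGField κ) (h2 : (2 : κ) ≠ 0) {I : Type}
    [Fintype I] (f : I → k[X]) (g : I → A[X]) (hg : ∀ i, (g i).Monic)
    (hs : ∀ i, ((g i).map ρ).Separable) (hfg : ∀ i, IsTwist (f i) ((g i).map (algebraMap A k)))
    (hcop : ∀ i j, i ≠ j → IsCoprime (f i) (f j)) (hev : ∀ i, Even (g i).natDegree)
    (h4 : ∀ i, 4 ≤ (g i).natDegree) (m : I → ℕ) (hm : ∀ i, Odd (m i)) (d : k)
    (hd : ValuationPrime 2 A d) (n : ℕ) (hn : 0 < n) (hne : Even n)
    (hroot : ∀ i, ∀ r : κ, ((g i).map ρ).eval r ≠ 0) : ¬ PointOrSection n d f m := by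
  refine nops ?_
  obtain ⟨ϖ, hϖ, hd0, hPV⟩ := notPV hd
  choose α β hα he using hfg
  have hsep := fun i => Pool.Agent.TH377.LocG.separable_residue ρ hρ _ (hs i)
  have hG : ∀ i, Run7.h846.GoodAff A (f i) (g i) (α i) (β i) :=
    fun i => ⟨hα i, hg i, hsep i, he i⟩
  obtain ⟨l, hl⟩ := Pool.Agent.TH377.LocG.exists_residue_lift ρ hρ
  have hroot' : ∀ i, ∀ b : A, (g i).eval b ∉ IsLocalRing.maximalIdeal A := by
    intro i
    refine Run7.h846.root_residue _ fun r hr => hroot i (l r) ?_
    rw [← Pool.Agent.TH377.LocG.map_residue_map ρ l hl, eval_map]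
    have h5 := eval₂_at_apply (p := (g i).map (IsLocalRing.residue A))
      (l : IsLocalRing.ResidueField A →+* κ) r
    rw [hr, map_zero] at h5
    exact h5
  refine Run7.h846.fac_nops Nat.prime_two hϖ f g α β hG hcop (fun i => ?_) m
    (fun i => (Nat.coprime_two_right.2 (hm i))) d hd0 hPV (fun i => ?_) hroot' hn hne.two_dvd
  · rw [← (hG i).natDegree]
    exact (hev i).two_dvd
  · refine Run7.h846.noSec_fg hϖ (Run7.h846.fg_of_equiv l.symm hκ) (fun h6 => h2 ?_) _ (hg i)
      (hsep i) (hev i).two_dvd (h4 i) (hroot' i)
    have h7 : l 2 = l 0 := congrArg l h6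
    rwa [map_ofNat, map_zero] at h7

end general

section rational

variable {K k : Type} [Field K] [CharZero K] [Field k] [Algebra K k] (t : k)
  (ht : Transcendental K t) (htop : IntermediateField.adjoin K {t} = (⊤ : IntermediateField K k))

include ht htop in
omit [CharZero K] in
/-- the local ring at `t = 0` -/
lemma local_data {I : Type} (g : I → K[X]) (hg : ∀ i, (g i).Monic) :
    ∃ (A : ValuationSubring k) (_ : IsDiscreteValuationRing A) (ρ : A →+* K) (g' : I → A[X]),
      Function.Surjective ρ ∧ (∀ i, (g' i).Monic) ∧ (∀ i, (g' i).map ρ = g i) ∧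
      (∀ i, (g' i).map (algebraMap A k) = (g i).map (algebraMap K k)) ∧
      ∀ (q : ℕ) (d : k), OrderPrime q K t d → ValuationPrime q A d := by
  obtain ⟨A, hA, ρ, i, hρ, hρi, hi, hX, hunit⟩ := Pool.Agent.W623.SecF.exists_dvr t ht htop
  have hρC : (ρ.comp (i.comp C)) = RingHom.id K := by
    ext c
    change ρ (i (C c)) = c
    rw [hρi, eval_C]
  refine ⟨A, hA, ρ, fun j => (g j).map (i.comp C), hρ, fun j => (hg j).map _, fun j => ?_,
    fun j => ?_, ?_⟩
  · rw [Polynomial.map_map, hρC, Polynomial.map_id]
  · rw [Polynomial.map_map]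
    congr 1
    ext c
    change ((i (C c) : A) : k) = _
    rw [hi, aeval_C]
  · rintro q d ⟨j, p, r, hj, hp, hr, rfl⟩
    obtain ⟨v, hv⟩ := hunit r hr
    refine ⟨i X, i p * ((v⁻¹ : Aˣ) : A), j, hX, (hunit p hp).mul (Units.isUnit _), hj, ?_⟩
    have h1 : algebraMap A k (i X) = t := by
      change ((i X : A) : k) = t
      rw [hi, aeval_X]
    have h2 : (((v⁻¹ : Aˣ) : A) : k) = (aeval t r)⁻¹ := by
      have h3 : ((v : A) : k) * (((v⁻¹ : Aˣ) : A) : k) = 1 := by
        have h4 := v.mul_inv
        exact_mod_cast congrArg (fun z : A => (z : k)) h4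
      rw [hv, hi] at h3
      exact eq_inv_of_mul_eq_one_right h3
    have h5 : algebraMap A k (i p * ((v⁻¹ : Aˣ) : A)) = aeval t p / aeval t r := by
      change ((i p : A) : k) * (((v⁻¹ : Aˣ) : A) : k) = _
      rw [hi, h2, div_eq_mul_inv]
    rw [h5, h1, mul_comm]

omit [CharZero K] in
/-- roots give points -/
lemma point_of_root {I : Type} [Fintype I] (f : I → k[X]) (g : I → K[X]) (m : I → ℕ) (i : I)
    (hfg : IsTwist (f i) ((g i).map (algebraMap K k))) (hm : m i ≠ 0) (d : k) {n : ℕ} (hn : 0 < n)
    {L : Type} [Field L] [Algebra k L] (e : L)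
    (he : (((g i).map (algebraMap K k)).map (algebraMap k L)).eval e = 0) :
    HasPoint n (algebraMap k L d) (fun i => (f i).map (algebraMap k L)) m := by
  obtain ⟨α, β, hα, h⟩ := hfg
  refine ⟨algebraMap k L α * e + algebraMap k L β, 0, ?_⟩
  rw [zero_pow hn.ne', mul_zero]
  refine (Finset.prod_eq_zero (Finset.mem_univ i) ?_).symm
  have h1 := congrArg (fun P => (P.map (algebraMap k L)).eval e) h
  simp only [Polynomial.map_comp, Polynomial.map_mul, Polynomial.map_add, map_C, map_X, eval_comp,
    eval_mul, eval_add, eval_C, eval_X, he, mul_zero] at h1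
  rw [h1, zero_pow hm]

end rational

/-- **The weak birational section conjecture for products of twisted polynomials.**  (A) Let `A` be a
discrete valuation ring of a field `k` of characteristic zero with residue field `κ` (through `ρ`),
`f_i ∈ k[x]` pairwise coprime twists of monic polynomials `g_i ∈ A[x]` with separable reductions, `q` a
prime number, `m_i` prime to `q`, `d` of valuation prime to `q`, `q ∣ n`, and let all reductions have
`GoodFactors`.  Then over all extensions of degree prime to `q` there are no points and no sections for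
`d y ^ n = ∏ f_i(x) ^ m_i`.  For `q = 2`, `κ` finitely generated of characteristic not `2`, there are no
points and no sections over `k` if the reductions have even degrees `≥ 4` and no root.  (B) Let `k = K(t)`,
`K` finitely generated over `ℚ`, `f_i` twists of separable monic `g_i ∈ K[x]` of even degrees `≥ 4`, `m_i`
odd, `n` even and `d` of odd order at `t = 0`.  Then some `g_i` has a root in `K` if and only if the curve
has a `k`-rational point if and only if it has a point or a section.  (C) Let `k = K(t)`, `q` a prime number,
`K` any field of characteristic zero (finitely generated and `deg g_i ≥ 4` if `q = 2`), and let `m_i`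
and the order of `d` at `t = 0` be prime to `q`.  Then some `g_i` has an irreducible factor of degree
prime to `q` if and only if the curve has a point over an extension of degree prime to `q` if and only if it
has a point or a section over an extension of degree prime to `q`. -/
theorem result :
    (∀ (k : Type) [Field k] [CharZero k] (A : Type) [CommRing A] [IsDomain A]
      [IsDiscreteValuationRing A] [Algebra A k] [IsFractionRing A k] (κ : Type) [Field κ]
      (ρ : A →+* κ), Function.Surjective ρ → ∀ (I : Type) [Fintype I] (f : I → k[X]) (g : I → A[X]),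
      (∀ i, (g i).Monic) → (∀ i, ((g i).map ρ).Separable) →
      (∀ i, IsTwist (f i) ((g i).map (algebraMap A k))) →
      (∀ i j, i ≠ j → IsCoprime (f i) (f j)) → ∀ (m : I → ℕ) (q : ℕ), q.Prime →
      (∀ i, ¬ q ∣ m i) → ∀ d : k, ValuationPrime q A d → ∀ n : ℕ, 0 < n → q ∣ n →
      ((∀ i, GoodFactors q ((g i).map ρ)) →
        ¬ OverPrime q (fun _ _ _ _ => PointOrSection) n d f m) ∧
      (q = 2 → FGField κ → (2 : κ) ≠ 0 → (∀ i, Even (g i).natDegree) →
        (∀ i, 4 ≤ (g i).natDegree) → (∀ i, ∀ r : κ, ((g i).map ρ).eval r ≠ 0) →
        ¬ PointOrSection n d f m)) ∧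
    (∀ (K k : Type) [Field K] [CharZero K] [Field k] [Algebra K k] (t : k), Transcendental K t →
      IntermediateField.adjoin K {t} = (⊤ : IntermediateField K k) → ∀ (I : Type) [Fintype I]
      (f : I → k[X]) (g : I → K[X]), (∀ i, (g i).Monic) → (∀ i, (g i).Separable) →
      (∀ i, IsTwist (f i) ((g i).map (algebraMap K k))) →
      (∀ i j, i ≠ j → IsCoprime (f i) (f j)) → ∀ (m : I → ℕ) (q : ℕ), q.Prime →
      (∀ i, ¬ q ∣ m i) → ∀ d : k, OrderPrime q K t d → ∀ n : ℕ, 0 < n → q ∣ n →
      (q = 2 → FGField K ∧ ∀ i, 4 ≤ (g i).natDegree) →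
      (q = 2 → (∀ i, Even (g i).natDegree) → List.TFAE [
        ∃ i, ∃ r : K, (g i).eval r = 0,
        HasPoint n d f m,
        PointOrSection n d f m]) ∧
      List.TFAE [
        ∃ i, ∃ P : K[X], Irreducible P ∧ P ∣ g i ∧ ¬ q ∣ P.natDegree,
        OverPrime q (fun _ _ _ _ => HasPoint) n d f m,
        OverPrime q (fun _ _ _ _ => PointOrSection) n d f m]) := by
  refine ⟨?_, ?_⟩
  · intro k _ _ A _ _ _ _ _ κ _ ρ hρ I _ f g hg hs hfg hcop m q hq hm d hd n hn hqn
    refine ⟨fun hcond => general ρ hρ q hq f g hg hs hfg hcop m hm d hd n hn hqn hcond, ?_⟩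
    rintro rfl hκ h2 hev h4 hroot
    exact general2 ρ hρ hκ h2 f g hg hs hfg hcop hev h4 m
      (fun i => Nat.odd_iff.2 (Nat.two_dvd_ne_zero.1 (hm i))) d hd n hn (even_iff_two_dvd.2 hqn) hroot
  · intro K k _ _ _ _ t ht htop I _ f g hg hs hfg hcop m q hq hm d hd n hn hqn h2
    have hcz : CharZero k := charZero_of_injective_algebraMap (algebraMap K k).injective
    obtain ⟨A, hA, ρ, g', hρ, hg', hρg, hgk, hval⟩ := local_data t ht htop g hg
    have hs' : ∀ i, ((g' i).map ρ).Separable := fun i => by
      rw [hρg]
      exact hs i
    have hfg' : ∀ i, IsTwist (f i) ((g' i).map (algebraMap A k)) := fun i => by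
      rw [hgk]
      exact hfg i
    have hdeg : ∀ i, (g' i).natDegree = (g i).natDegree := fun i => by
      rw [← hρg i, (hg' i).natDegree_map]
    have hmne : ∀ i, m i ≠ 0 := fun i h => hm i (h ▸ dvd_zero _)
    constructor
    · rintro rfl hev
      obtain ⟨hK, h4⟩ := h2 rfl
      tfae_have 1 → 2 := by
        rintro ⟨i, r, hr⟩
        have h1 := point_of_root (L := k) f g m i (hfg i) (hmne i) d hn (algebraMap K k r) (by
          rw [Algebra.algebraMap_self, Polynomial.map_id, eval_map, eval₂_at_apply, hr, map_zero])
        simpa only [Algebra.algebraMap_self, Polynomial.map_id, RingHom.id_apply] using h1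
      tfae_have 2 → 3 := Or.inl
      tfae_have 3 → 1 := by
        intro hP
        by_contra hno
        push Not at hno
        exact general2 ρ hρ hK two_ne_zero f g' hg' hs' hfg' hcop
          (fun i => by rw [hdeg]; exact hev i) (fun i => by rw [hdeg]; exact h4 i) m
          (fun i => Nat.odd_iff.2 (Nat.two_dvd_ne_zero.1 (hm i))) d (hval _ _ hd) n hn
          (even_iff_two_dvd.2 hqn) (fun i r => by rw [hρg]; exact hno i r) hP
      tfae_finish
    · tfae_have 1 → 2 := by
        rintro ⟨i, P, hP, hPg, hPq⟩
        obtain ⟨r, hr1, hr2, hr3⟩ := Run7.h846.exists_irred q _ (P.map (algebraMap K k)) rfl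
          (Polynomial.map_ne_zero hP.ne_zero) (by rw [natDegree_map]; exact hPq)
        have : Fact (Irreducible r) := ⟨hr1⟩
        refine ⟨AdjoinRoot r, inferInstance, inferInstance,
          (AdjoinRoot.powerBasis hr1.ne_zero).finite, ?_, ?_⟩
        · rw [(AdjoinRoot.powerBasis hr1.ne_zero).finrank, AdjoinRoot.powerBasis_dim]
          exact hr3
        · refine point_of_root f g m i (hfg i) (hmne i) d hn (AdjoinRoot.root r) ?_
          rw [eval_map]
          obtain ⟨w, hw⟩ := hr2.trans (Polynomial.map_dvd (algebraMap K k) hPg)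
          have h1 : eval₂ (algebraMap k (AdjoinRoot r)) (AdjoinRoot.root r) r = 0 :=
            AdjoinRoot.eval₂_root r
          rw [hw, eval₂_mul, h1, zero_mul]
      tfae_have 2 → 3 := by
        rintro ⟨L, i1, i2, i3, hL, hP⟩
        exact ⟨L, i1, i2, i3, hL, Or.inl hP⟩
      tfae_have 3 → 1 := by
        intro hP
        by_contra hno
        push Not at hno
        refine general ρ hρ q hq f g' hg' hs' hfg' hcop m hm d (hval _ _ hd) n hn hqn (fun i => ?_) hP
        have hF : FactorsDivisible q ((g' i).map ρ) := fun h h1 h3 => hno i h h1 (by rwa [hρg] at h3)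
        rcases hq.eq_two_or_odd' with rfl | hodd
        · obtain ⟨hK, h4⟩ := h2 rfl
          exact Or.inr ⟨rfl, hK, two_ne_zero, by rw [hρg]; exact h4 i, hF⟩
        · left
          have h5 : Nat.gcd 2 q = 1 := Nat.coprime_two_left.2 hodd
          rw [h5, one_mul]
          exact hF
      tfae_finish

end Pool.Agent.Results.MP_8312c9_nt.ProductsOfTwistedPolynomials
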