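import Pool.Agent.Run7.h375.SC.One

/-!
# The birational section conjecture and free quadratic steps on one conic

Let `K` be a number field with a real embedding, for example the rational numbers, `Ω` its
algebraic closure, and `N` an algebraic closure of `Ω(t)`. For every curve `X` over a finite
extension `L` of `K` the sections of the absolute Galois group of the function field `L(X)` are
sections over `L` of `Gal(N/K(y)) → Gal(Ω/K)`, where `y` is a nonconstant function of `X`.

Let `a`, `b` be elements of `N` with `a² + b² = -1`, where `a` is not constant. Then the birational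
section conjecture for all curves over all finite extensions of `K` is equivalent to a statement on
this conic and on Galois extensions `L/E` of degree two which are unramified at all finite places
and split at the places above an integer `m`.
-/

set_option autoImplicit false

namespace Pool.Agent.Results.MP_8312c9_nt.QuadraticSteps

open IntermediateField Run7.h375.SC

/-- **Birational section conjecture and free quadratic steps.** -/
theorem result {K Ω N : Type} [Field K] [NumberField K] [Field Ω] [Algebra K Ω]
    [IsAlgClosure K Ω] [Field N] [IsAlgClosed N] [Algebra K N] [Algebra Ω N]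
    [IsScalarTower K Ω N]
    (hN : ∀ y : N, y ∉ Set.range (algebraMap Ω N) → Algebra.IsAlgebraic K⟮y⟯ N)
    (ρ : K →+* ℝ) (a b : N) (ha : a ∉ Set.range (algebraMap Ω N)) (hab : a * a + b * b = -1)
    (m : (Gal(Ω/K) → Gal(N/K⟮a, b⟯)) → ℤ) (hm : ∀ s, m s ≠ 0)
    (hm' : ∀ s t, SameGerm s t → m s = m t) :
    (∀ y : N, y ∉ Set.range (algebraMap Ω N) → ∀ L : IntermediateField K Ω,
      FiniteDimensional K L → SectionConjecture K⟮y⟯ N L) ↔
    ∀ (s : Gal(Ω/K) → Gal(N/K⟮a, b⟯)) (E L : IntermediateField K Ω),
      IsFreeStep {2} (m s) E L → GivenOrExtends E L s :=
  birat_one hN ρ a b ha hab m hm hm'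

end Pool.Agent.Results.MP_8312c9_nt.QuadraticSteps
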